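import Pool.Agent.ABCP.Stmts

/-!
# Squad ABCP, row TRC (helper25): elementary properties of relative traces
-/

set_option autoImplicit false

namespace Pool.Agent.ABCP.H25

open Matrix
open Pool.Agent.ABC3 (St sdeg xc mu mu_def xc_comm xc_sq mu_comm mu_deg HasDeg HomV kr)

section binom

variable {p : ℕ} [hp : Fact p.Prime] {K : Type} [Field K] [CharP K p]

theorem choose_pred (m : ℕ) (hm : m < p) : (((p - 1).choose m : ℕ) : K) = (-1) ^ m := by
  induction m with
  | zero => simp
  | succ m ih =>
    have h1 := ih (by omega)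
    have h2 : p.choose (m + 1) = (p - 1).choose m + (p - 1).choose (m + 1) := by
      obtain ⟨k, hk⟩ : ∃ k, p = k + 1 := ⟨p - 1, by have := hp.out.two_le; omega⟩
      have h3 : p - 1 = k := by omega
      rw [h3]
      conv_lhs => rw [hk]
      exact Nat.choose_succ_succ k m
    have h3 : ((p.choose (m + 1) : ℕ) : K) = 0 := by
      rw [CharP.cast_eq_zero_iff K p]
      exact hp.out.dvd_choose_self (by omega) hm
    rw [h2, Nat.cast_add, h1] at h3
    rw [pow_succ]
    linear_combination h3

theorem neg_one_pow_pred : ((-1 : K)) ^ (p - 1) = 1 := by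
  have h1 : ((-1 : K)) ^ p = -1 := neg_one_pow_char K p
  have h2 : ((-1 : K)) ^ p = (-1) ^ (p - 1) * (-1) := by
    rw [← pow_succ]
    congr 1
    have := hp.out.two_le
    omega
  rw [h2] at h1
  linear_combination -h1

/-- in characteristic `p`: `(x - y)^(p-1) = Σ x^i y^(p-1-i)` -/
theorem sub_pow_pred (K : Type) [Field K] [CharP K p] {A : Type} [Ring A] [Algebra K A] {x y : A}
    (h : Commute x y) : (x - y) ^ (p - 1) = ∑ i ∈ Finset.range p, x ^ i * y ^ (p - 1 - i) := by
  have hp1 : p - 1 + 1 = p := by have := hp.out.two_le; omega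
  rw [sub_eq_add_neg, h.neg_right.add_pow, hp1]
  refine Finset.sum_congr rfl fun m hm => ?_
  rw [Finset.mem_range] at hm
  have h1 : (((p - 1).choose m : ℕ) : A) = (-1) ^ m := by
    have := congrArg (algebraMap K A) (choose_pred (K := K) m hm)
    simpa using this
  have h2 : ((-1 : A)) ^ (p - 1) = 1 := by
    have := congrArg (algebraMap K A) (neg_one_pow_pred (p := p) (K := K))
    simpa using this
  rw [h1, neg_pow y, mul_assoc, mul_assoc]
  congr 1
  have h3 : ((-1 : A)) ^ m * (-1) ^ (p - 1 - m) = 1 := by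
    rw [← pow_add]
    have : m + (p - 1 - m) = p - 1 := by omega
    rw [this, h2]
  have h4 : Commute (y ^ (p - 1 - m)) ((-1 : A) ^ m) := (Commute.neg_one_right _).pow_right _
  rw [h4.eq, ← mul_assoc, ← pow_add, add_comm, pow_add, h3, one_mul]

end binom

section

set_option linter.unusedSectionVars false

variable {p : ℕ} {K Q B : Type} [Field K] [AddCommGroup Q] [Module K Q]
  [Fintype B] [DecidableEq B] (S : Sys p K Q B)

theorem hasDeg_zero {deg : B → ℤ} {k : ℤ} : HasDeg deg k (0 : Matrix B B K) := by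
  intro s s' h
  exact absurd rfl h

theorem hasDeg_one {deg : B → ℤ} : HasDeg deg 0 (1 : Matrix B B K) := by
  intro s s' h
  by_cases h1 : s = s'
  · rw [h1, add_zero]
  · exact absurd (Matrix.one_apply_ne h1) h

theorem hasDeg_add {deg : B → ℤ} {k : ℤ} {M N : Matrix B B K} (hM : HasDeg deg k M)
    (hN : HasDeg deg k N) : HasDeg deg k (M + N) := by
  intro s s' h
  by_cases h1 : M s s' = 0
  · apply hN s s'
    intro h2
    apply h
    rw [Matrix.add_apply, h1, h2, add_zero]
  · exact hM s s' h1

theorem hasDeg_mul {deg : B → ℤ} {k l : ℤ} {M N : Matrix B B K} (hM : HasDeg deg k M)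
    (hN : HasDeg deg l N) : HasDeg deg (k + l) (M * N) := by
  intro s s' h
  rw [Matrix.mul_apply] at h
  obtain ⟨j, -, hj⟩ := Finset.exists_ne_zero_of_sum_ne_zero h
  have h1 := hM s j (left_ne_zero_of_mul hj)
  have h2 := hN j s' (right_ne_zero_of_mul hj)
  rw [h1, h2]
  ring

theorem hasDeg_sum {deg : B → ℤ} {k : ℤ} {ι : Type} (s : Finset ι) {M : ι → Matrix B B K}
    (hM : ∀ i ∈ s, HasDeg deg k (M i)) : HasDeg deg k (∑ i ∈ s, M i) := by
  classical
  induction s using Finset.induction_on with
  | empty => rw [Finset.sum_empty]; exact hasDeg_zero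
  | insert a s ha ih =>
    rw [Finset.sum_insert ha]
    exact hasDeg_add (hM a (Finset.mem_insert_self _ _))
      (ih fun i hi => hM i (Finset.mem_insert_of_mem hi))

theorem hasDeg_act (q : Q) : HasDeg S.deg 1 (S.act q) := fun s s' h => S.hdeg q s s' h

theorem hasDeg_act_pow (q : Q) (n : ℕ) : HasDeg S.deg n (S.act q ^ n) := by
  induction n with
  | zero => rw [pow_zero, Nat.cast_zero]; exact hasDeg_one
  | succ n ih =>
    rw [pow_succ, Nat.cast_add, Nat.cast_one]
    exact hasDeg_mul ih (hasDeg_act S q)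

theorem hasDeg_Tr {k : ℤ} (q : Q) {g : Matrix B B K} (hg : HasDeg S.deg k g) :
    HasDeg S.deg (k + ((p : ℤ) - 1)) (Tr S q g) := by
  unfold Tr
  refine hasDeg_sum _ fun i hi => ?_
  rw [Finset.mem_range] at hi
  have h := hasDeg_mul (hasDeg_mul (hasDeg_act_pow S q i) hg) (hasDeg_act_pow S q (p - 1 - i))
  have e : (i : ℤ) + k + ((p - 1 - i : ℕ) : ℤ) = k + ((p : ℤ) - 1) := by
    have : ((p - 1 - i : ℕ) : ℤ) = (p : ℤ) - 1 - i := by omega
    rw [this]
    ring
  rw [e] at h
  exact h

/-- `ad a` as a linear map -/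
def adL (a : Matrix B B K) : Module.End K (Matrix B B K) :=
  LinearMap.mulLeft K a - LinearMap.mulRight K a

theorem adL_apply (a g : Matrix B B K) : adL a g = a * g - g * a := rfl

theorem Tr_sum (q : Q) (g : Matrix B B K) : Tr S q g =
    (∑ i ∈ Finset.range p, (LinearMap.mulLeft K (S.act q)) ^ i *
      (LinearMap.mulRight K (S.act q)) ^ (p - 1 - i) : Module.End K (Matrix B B K)) g := by
  unfold Tr
  rw [LinearMap.sum_apply]
  refine Finset.sum_congr rfl fun i _ => ?_
  rw [LinearMap.pow_mulLeft, LinearMap.pow_mulRight, Module.End.mul_apply,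
    LinearMap.mulLeft_apply, LinearMap.mulRight_apply, mul_assoc]

theorem comm_LR (a : Matrix B B K) :
    Commute (LinearMap.mulLeft K a) (LinearMap.mulRight K a) :=
  LinearMap.commute_mulLeft_right a a

theorem Tr_ad [hp : Fact p.Prime] [CharP K p] (q : Q) (g : Matrix B B K) :
    Tr S q g = ((adL (S.act q)) ^ (p - 1)) g := by
  rw [Tr_sum]
  unfold adL
  rw [sub_pow_pred (p := p) K (comm_LR (S.act q))]

theorem comm_Tr_self (q : Q) (g : Matrix B B K) :
    S.act q * Tr S q g = Tr S q g * S.act q := by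
  have h1 := (comm_LR (K := K) (S.act q)).mul_geom_sum₂ p
  rw [LinearMap.pow_mulLeft, LinearMap.pow_mulRight, S.pw, LinearMap.mulLeft_zero_eq_zero,
    LinearMap.mulRight_zero_eq_zero, sub_zero] at h1
  have h2 := congrArg (fun L : Module.End K (Matrix B B K) => L g) h1
  simp only [Module.End.mul_apply, LinearMap.zero_apply] at h2
  rw [← Tr_sum] at h2
  exact sub_eq_zero.1 h2

theorem comm_Tr_of (q x : Q) (g : Matrix B B K) (hx : S.act x * g = g * S.act x) :
    S.act x * Tr S q g = Tr S q g * S.act x := by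
  unfold Tr
  have c1 : Commute (S.act x) (S.act q) := S.comm x q
  have c2 : Commute (S.act x) g := hx
  exact Commute.sum_right _ _ _ fun i _ =>
    ((c1.pow_right i).mul_right c2).mul_right (c1.pow_right _)

theorem com_Tr (P : Submodule K Q) (l : Q →ₗ[K] K) (q : Q) (g : Matrix B B K)
    (hg : Com S (P ⊓ LinearMap.ker l) g) (hq : q ∈ P) (hl : l q = 1) : Com S P (Tr S q g) := by
  intro x hx
  have hx' : x - l x • q ∈ P ⊓ LinearMap.ker l := by
    refine ⟨P.sub_mem hx (P.smul_mem _ hq), ?_⟩
    show x - l x • q ∈ LinearMap.ker l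
    rw [LinearMap.mem_ker, map_sub, map_smul, hl, smul_eq_mul, mul_one, sub_self]
  have h1 := comm_Tr_of S q (x - l x • q) g (hg _ hx')
  have h2 := comm_Tr_self S q g
  have e : S.act x = S.act (x - l x • q) + l x • S.act q := by
    rw [← map_smul, ← map_add, sub_add_cancel]
  rw [e, add_mul, mul_add, h1, smul_mul_assoc, h2, mul_smul_comm]

theorem mul_Tr_mul (q : Q) (A g C : Matrix B B K) (hA : S.act q * A = A * S.act q)
    (hC : S.act q * C = C * S.act q) : A * Tr S q g * C = Tr S q (A * g * C) := by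
  unfold Tr
  rw [Finset.mul_sum, Finset.sum_mul]
  refine Finset.sum_congr rfl fun i _ => ?_
  have c1 : Commute (S.act q ^ i) A := Commute.pow_left hA i
  have c2 : Commute (S.act q ^ (p - 1 - i)) C := Commute.pow_left hC _
  calc A * (S.act q ^ i * g * S.act q ^ (p - 1 - i)) * C
      = (A * S.act q ^ i) * g * (S.act q ^ (p - 1 - i) * C) := by simp only [mul_assoc]
    _ = (S.act q ^ i * A) * g * (C * S.act q ^ (p - 1 - i)) := by rw [c1.eq, c2.eq]
    _ = S.act q ^ i * (A * g * C) * S.act q ^ (p - 1 - i) := by simp only [mul_assoc]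

theorem Tr_add (q : Q) (g g' : Matrix B B K) : Tr S q (g + g') = Tr S q g + Tr S q g' := by
  unfold Tr
  rw [← Finset.sum_add_distrib]
  refine Finset.sum_congr rfl fun i _ => ?_
  rw [mul_add, add_mul]

theorem ad_pow_eq {a x g : Matrix B B K} (h : a * x = x * a) (hx : x * g = g * x) (m : ℕ) :
    ((adL (a + x)) ^ m) g = ((adL a) ^ m) g := by
  have hc : Commute (adL a) (adL x) := by
    show adL a * adL x = adL x * adL a
    apply LinearMap.ext
    intro z
    simp only [Module.End.mul_apply, adL_apply]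
    rw [mul_sub, sub_mul, mul_sub, sub_mul]
    have e1 : a * (x * z) = x * (a * z) := by rw [← mul_assoc, h, mul_assoc]
    have e2 : z * x * a = z * a * x := by rw [mul_assoc, ← h, ← mul_assoc]
    rw [e1, e2]
    noncomm_ring
  have hz : adL x g = 0 := by rw [adL_apply, hx, sub_self]
  have hadd : adL (a + x) = adL a + adL x := by
    apply LinearMap.ext
    intro z
    rw [LinearMap.add_apply]
    simp only [adL_apply]
    noncomm_ring
  induction m with
  | zero => rfl
  | succ m ih =>
    rw [pow_succ', Module.End.mul_apply, ih, hadd, LinearMap.add_apply, pow_succ',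
      Module.End.mul_apply]
    have h3 : adL x (((adL a) ^ m) g) = 0 := by
      have h4 := (hc.pow_left m).eq
      have h5 := congrArg (fun L : Module.End K (Matrix B B K) => L g) h4
      simp only [Module.End.mul_apply] at h5
      rw [← h5, hz, map_zero]
    rw [h3, add_zero]

theorem Tr_indep [hp : Fact p.Prime] [CharP K p] (P : Submodule K Q) (l : Q →ₗ[K] K) (q q' : Q)
    (g : Matrix B B K) (hg : Com S (P ⊓ LinearMap.ker l) g) (hq : q ∈ P) (hq' : q' ∈ P)
    (hl : l q = 1) (hl' : l q' = 1) : Tr S q g = Tr S q' g := by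
  have hx' : q' - q ∈ P ⊓ LinearMap.ker l := by
    refine ⟨P.sub_mem hq' hq, ?_⟩
    show q' - q ∈ LinearMap.ker l
    rw [LinearMap.mem_ker, map_sub, hl, hl', sub_self]
  have e : S.act q' = S.act q + S.act (q' - q) := by
    rw [← map_add]
    congr 1
    abel
  rw [Tr_ad, Tr_ad, e, ad_pow_eq (S.comm q (q' - q)) (hg _ hx')]

end

/-- Row TRC. -/
theorem trc : TRCStmt := by
  intro p _ K Q B _ _ _ _ _ _ S
  exact ⟨fun P l q g hg hq hl => com_Tr S P l q g hg hq hl,
    fun k q g hg => hasDeg_Tr S q hg, fun q A g C hA hC => mul_Tr_mul S q A g C hA hC,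
    fun q g => Tr_ad S q g,
    fun P l q q' g hg hq hq' hl hl' => Tr_indep S P l q q' g hg hq hq' hl hl',
    fun q g g' => Tr_add S q g g'⟩

end Pool.Agent.ABCP.H25
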