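import Pool.Agent.ABCP.Stmts
import Pool.Agent.Helper56_ABC3.KRS
import Pool.Agent.Helper25_ABC3.ATT
import Pool.Agent.Helper25_ABCP.TRC

/-!
# Squad ABCP, row ATT (helper25): the main theorem in the language of `T(Z)`
-/

set_option autoImplicit false

namespace Pool.Agent.ABCP.H25

open Matrix
open Pool.Agent.ABC3 (St sdeg xc mu mu_def xc_comm xc_sq mu_comm mu_deg HasDeg HomV kr)
open Pool.Agent.ABC3.H25 (vac mulVec_vac vac_ne homV_vac homV_mulVec homV_neg homV_zero mu_zero'
  kr_zero_left kr_vac)

/-- the product of operators of elements of `P` is `1 ⊗` the product on the vectors not vanishing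
on `P` -/
theorem prod_kr {p : ℕ} [Fact p.Prime] {K Q : Type} [Field K] [CharP K p] [AddCommGroup Q]
    [Module K Q]
    {ι ι₁ ι₂ : Type} [Fintype ι] [DecidableEq ι] [Fintype ι₁] [DecidableEq ι₁] [Fintype ι₂]
    [DecidableEq ι₂] (σ : ι₁ ⊕ ι₂ ≃ ι) (ev : ι → (Q →ₗ[K] K)) (P : Submodule K Q)
    (h1 : ∀ i : ι₁, ∀ x ∈ P, ev (σ (Sum.inl i)) x = 0) (l : List P) :
    ((l.map (fun x : P => (TSys p ev).act (x : Q))).prod) =
      kr σ 1 ((l.map (fun x : P => (TSys p (fun i : ι₂ => (ev (σ (Sum.inr i))).comp
        P.subtype)).act x)).prod) := by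
  obtain ⟨k1, k2, -, -, k5, -⟩ := Pool.Agent.ABC3.H56.krs K ι ι₁ ι₂ σ
  induction l with
  | nil => rw [List.map_nil, List.map_nil, List.prod_nil, List.prod_nil, k2]
  | cons x l ih =>
    rw [List.map_cons, List.map_cons, List.prod_cons, List.prod_cons, ih]
    have h2 : (TSys p ev).act (x : Q) =
        kr σ 1 ((TSys p (fun i : ι₂ => (ev (σ (Sum.inr i))).comp P.subtype)).act x) := by
      rw [TSys_act, TSys_act, k5, mu_zero' (fun i => h1 i x x.2), kr_zero_left, zero_add]
      rfl
    rw [h2, k1, one_mul]

theorem homV_act_pow {p : ℕ} {K Q B : Type} [Field K] [AddCommGroup Q] [Module K Q]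
    [Fintype B] [DecidableEq B] (S : Sys p K Q B) (q : Q) {d : ℤ} {v : B → K}
    (hv : HomV S.deg d v) (n : ℕ) : HomV S.deg (d + n) ((S.act q ^ n).mulVec v) :=
  homV_mulVec (hasDeg_act_pow S q n) hv

theorem att_aux (ind : INDStmt) (cpx : CPXStmt) (p : ℕ) [hp : Fact p.Prime]
    (K : Type) [Field K] [CharP K p] [IsAlgClosed K] (n : ℕ) :
    ∀ (Q : Type) [AddCommGroup Q] [Module K Q]
    [FiniteDimensional K Q] (ι : Type) [Fintype ι] [DecidableEq ι] (ev : ι → (Q →ₗ[K] K)),
    (∀ c, ev c ≠ 0) →
    (∀ P : Submodule K Q, P ≠ ⊥ →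
      (3 * p - 4) * Module.finrank K P ≤
        Nat.card {c // ¬ P ≤ LinearMap.ker (ev c)} + (2 * p - 3)) →
    Module.finrank K Q = n →
    ∃ l : List Q, l.length = (p - 1) * n ∧
      ((l.map (fun x => (TSys p ev).act x)).prod).mulVec (vac K ι) ≠ 0 := by
  have hp2 := hp.out.two_le
  induction n with
  | zero =>
    intro Q _ _ _ ι _ _ ev _ _ _
    refine ⟨[], by simp, ?_⟩
    rw [List.map_nil, List.prod_nil, Matrix.one_mulVec]
    exact vac_ne
  | succ n ih =>
    intro Q _ _ _ ι _ _ ev hev hP hn
    classical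
    obtain ⟨e, he⟩ := cpx p K Q (St ι) (TSys p ev) ι ev hev
    obtain ⟨he1, ⟨he2, he3⟩, ⟨g, hg, hsum⟩, he5⟩ := id he
    have hgood : Good p ev := ind p K (n + 2) Q ι ev hev (by omega) (by omega)
    have hlow := hgood e he
    have htop : (⊤ : Submodule K Q) ≠ ⊥ := by
      intro h
      have h1 := finrank_top K Q
      rw [h, finrank_bot] at h1
      omega
    have hthr : 0 < thr p (Fintype.card ι) (Module.finrank K Q) := by
      have h1 := hP ⊤ htop
      rw [finrank_top] at h1
      have h2 : Nat.card {c // ¬ (⊤ : Submodule K Q) ≤ LinearMap.ker (ev c)} ≤ Fintype.card ι := by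
        rw [Nat.card_eq_fintype_card]
        exact Fintype.card_subtype_le _
      have h3 : (3 * p - 4) * Module.finrank K Q ≤ Fintype.card ι + (2 * p - 3) := by omega
      have h4 : (((3 * p - 4 : ℕ) : ℤ)) * (Module.finrank K Q : ℤ) ≤
          (Fintype.card ι : ℤ) + ((2 * p - 3 : ℕ) : ℤ) := by exact_mod_cast h3
      have h5 : ((3 * p - 4 : ℕ) : ℤ) = 3 * (p : ℤ) - 4 := by omega
      have h6 : ((2 * p - 3 : ℕ) : ℤ) = 2 * (p : ℤ) - 3 := by omega
      rw [h5, h6] at h4
      unfold thr
      linarith
    -- the vacuum is killed by the cap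
    have hev0 : e.mulVec (vac K ι) = 0 := by
      refine hlow 0 (by omega) _ ?_ ?_
      · have h1 := homV_mulVec he2 (homV_vac (K := K) (ι := ι))
        simpa using h1
      · rw [Matrix.mulVec_mulVec, he1]
    have hq : ∀ c, ∃ q : Q, ev c q = 1 := by
      intro c
      have h1 : ∃ x, ev c x ≠ 0 := by
        by_contra h
        push Not at h
        exact hev c (LinearMap.ext h)
      obtain ⟨x, hx⟩ := h1
      exact ⟨(ev c x)⁻¹ • x, by rw [map_smul, smul_eq_mul, inv_mul_cancel₀ hx]⟩
    choose q hq using hq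
    have h1 := hsum q hq
    have hvac : HomV (TSys p ev).deg 0 (vac K ι) := homV_vac
    have h2 : ∀ c, (Tr (TSys p ev) (q c) (g c)).mulVec (vac K ι) =
        (g c * (TSys p ev).act (q c) ^ (p - 1)).mulVec (vac K ι) := by
      intro c
      unfold Tr
      rw [Matrix.sum_mulVec, Finset.sum_eq_single 0]
      · rw [pow_zero, one_mul, Nat.sub_zero]
      · intro i hi hi0
        rw [Finset.mem_range] at hi
        rw [mul_assoc, ← Matrix.mulVec_mulVec, ← Matrix.mulVec_mulVec]
        have h3 : (g c).mulVec (((TSys p ev).act (q c) ^ (p - 1 - i)).mulVec (vac K ι)) = 0 := by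
          refine homV_neg ?_ (homV_mulVec (hg c).1 (homV_act_pow _ (q c) hvac (p - 1 - i)))
          have : ((p - 1 - i : ℕ) : ℤ) = (p : ℤ) - 1 - i := by omega
          omega
        rw [h3, Matrix.mulVec_zero]
      · intro h
        exact absurd (Finset.mem_range.2 (by omega)) h
    have h3 : vac K ι = ∑ c, (g c * (TSys p ev).act (q c) ^ (p - 1)).mulVec (vac K ι) := by
      have h4 : (1 - e).mulVec (vac K ι) = vac K ι := by
        rw [Matrix.sub_mulVec, Matrix.one_mulVec, hev0, sub_zero]
      rw [h1, Matrix.sum_mulVec] at h4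
      exact h4.symm.trans (Finset.sum_congr rfl fun c _ => h2 c)
    obtain ⟨c, hc⟩ : ∃ c, (g c * (TSys p ev).act (q c) ^ (p - 1)).mulVec (vac K ι) ≠ 0 := by
      by_contra h
      push Not at h
      rw [Finset.sum_eq_zero fun c _ => h c] at h3
      exact vac_ne h3
    have h5 : HomV sdeg 0 ((g c * (TSys p ev).act (q c) ^ (p - 1)).mulVec (vac K ι)) := by
      rw [← Matrix.mulVec_mulVec]
      have h6 := homV_mulVec (hg c).1 (homV_act_pow _ (q c) hvac (p - 1))
      have e0 : (0:ℤ) + ((p - 1 : ℕ) : ℤ) + (-((p : ℤ) - 1)) = 0 := by omega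
      rw [e0] at h6
      exact h6
    have h6 := homV_zero h5
    set μ : K := (g c * (TSys p ev).act (q c) ^ (p - 1)).mulVec (vac K ι)
      (fun _ => false) with hμ
    have hμ0 : μ ≠ 0 := by
      intro h
      rw [h, zero_smul] at h6
      exact hc h6
    -- the induction hypothesis
    set P : Submodule K Q := LinearMap.ker (ev c) with hPdef
    have hPn : Module.finrank K P = n := by
      have h7 := LinearMap.finrank_range_add_finrank_ker (ev c)
      have h8 : Module.finrank K (LinearMap.range (ev c)) = 1 := by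
        rw [LinearMap.range_eq_top.2, finrank_top, Module.finrank_self]
        intro x
        exact ⟨x • q c, by rw [map_smul, hq c, smul_eq_mul, mul_one]⟩
      rw [h8, hn] at h7
      rw [hPdef]
      omega
    obtain ⟨l, hl, hl2⟩ := ih P {c' // ¬ P ≤ LinearMap.ker (ev c')}
      (fun i => (ev i.1).comp P.subtype) (by
        intro i h
        apply i.2
        intro x hx
        have := LinearMap.congr_fun h ⟨x, hx⟩
        simpa using this) (by
        intro P' hP'
        have h7 : P'.map P.subtype ≠ ⊥ := by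
          intro h
          exact hP' (Submodule.map_injective_of_injective P.injective_subtype
            (h.trans (Submodule.map_bot _).symm))
        have h8 := hP _ h7
        have h9 : Module.finrank K (P'.map P.subtype) = Module.finrank K P' :=
          (LinearEquiv.finrank_eq
            (Submodule.equivMapOfInjective P.subtype P.injective_subtype P')).symm
        rw [h9] at h8
        refine h8.trans (Nat.add_le_add_right ?_ (2 * p - 3))
        refine Nat.card_le_card_of_injective (fun i => ⟨⟨i.1, ?_⟩, ?_⟩) ?_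
        · intro h
          exact i.2 ((Submodule.map_subtype_le P P').trans h)
        · intro h
          apply i.2
          rw [Submodule.map_le_iff_le_comap]
          exact h
        · intro a b h
          exact Subtype.ext (congrArg (fun z => z.1.1) h)) hPn
    have hp := prod_kr (p := p) (Equiv.sumCompl (fun c' => P ≤ LinearMap.ker (ev c'))) ev P
      (fun i x hx => i.2 hx) l
    have hp2 := kr_vac (ι₁ := {c' // P ≤ LinearMap.ker (ev c')})
      (Equiv.sumCompl (fun c' => P ≤ LinearMap.ker (ev c'))) hl2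
    have hp3 : ((l.map (fun x : P => (TSys p ev).act (x : Q))).prod).mulVec (vac K ι) ≠ 0 := by
      rw [hp]
      exact hp2
    have hcom : ((l.map (fun x : P => (TSys p ev).act (x : Q))).prod) * g c =
        g c * ((l.map (fun x : P => (TSys p ev).act (x : Q))).prod) := by
      refine Commute.list_prod_left _ _ ?_
      intro x hx
      rw [List.mem_map] at hx
      obtain ⟨y, _, rfl⟩ := hx
      exact (hg c).2 y y.2
    refine ⟨l.map (fun x : P => (x : Q)) ++ List.replicate (p - 1) (q c), ?_, ?_⟩
    · rw [List.length_append, List.length_map, hl, List.length_replicate]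
      ring
    · have h10 : (((l.map (fun x : P => (x : Q)) ++ List.replicate (p - 1) (q c)).map
          (fun x => (TSys p ev).act x)).prod) =
          (l.map (fun x : P => (TSys p ev).act (x : Q))).prod *
            ((TSys p ev).act (q c) ^ (p - 1)) := by
        rw [List.map_append, List.prod_append, List.map_map, List.map_replicate,
          List.prod_replicate]
        rfl
      rw [h10]
      intro h11
      have h12 := congrArg (fun v => (g c).mulVec v) h11
      simp only [Matrix.mulVec_zero] at h12
      rw [Matrix.mulVec_mulVec, ← mul_assoc, ← hcom, mul_assoc,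
        ← Matrix.mulVec_mulVec, h6, Matrix.mulVec_smul] at h12
      rcases smul_eq_zero.1 h12 with h13 | h13
      · exact hμ0 h13
      · exact hp3 h13

theorem att (ind : INDStmt) (cpx : CPXStmt) : ATTStmt := by
  intro p _ K Q _ _ _ _ _ _ ι _ _ ev hev hP
  exact att_aux ind cpx p K _ Q ι ev hev hP rfl

end Pool.Agent.ABCP.H25
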